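import Pool.Agent.helper69.SN.SpecB

/-!
# Project sn (MP_d2d7b9), row mMOA: basic facts on mollification
-/

open scoped Pointwise ContDiff
open MeasureTheory Set Filter Topology

set_option linter.unusedVariables false

namespace Pool.Agent.helper90.SN

open Pool.Agent.helper83.SC Pool.Agent.helper69.SN

theorem mol_zero_of {m : ℕ} (φ : ContDiffBump (0 : E m)) {t : E m} (ht : ¬ ‖t‖ ≤ φ.rOut) :
    φ.normed volume t = 0 := by
  have h1 : t ∉ Function.support (φ.normed volume) := by
    rw [ContDiffBump.support_normed_eq, Metric.mem_ball, dist_zero_right]
    exact fun h => ht h.le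
  exact Function.notMem_support.1 h1

theorem mol_integrable {m : ℕ} (φ : ContDiffBump (0 : E m)) {g : E m → ℝ} (hg : Continuous g) :
    Integrable (fun t => φ.normed volume t * g t) := by
  refine Continuous.integrable_of_hasCompactSupport ?_ ?_
  · exact φ.continuous_normed.mul hg
  · exact φ.hasCompactSupport_normed.mul_right

theorem mol_le {m : ℕ} (φ : ContDiffBump (0 : E m)) {g : E m → ℝ} (hg : Continuous g) {ε : ℝ}
    (h : ∀ t, ‖t‖ ≤ φ.rOut → |g t| ≤ ε) : |∫ t, φ.normed volume t * g t| ≤ ε := by
  have h1 : ∫ t, φ.normed volume t * ε = ε := by
    rw [integral_mul_const, ContDiffBump.integral_normed, one_mul]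
  have h2 : ‖∫ t, φ.normed volume t * g t‖ ≤ ∫ t, φ.normed volume t * ε := by
    refine norm_integral_le_of_norm_le ?_ (Filter.Eventually.of_forall fun t => ?_)
    · exact mol_integrable φ continuous_const
    · rw [norm_mul, Real.norm_eq_abs, Real.norm_eq_abs, abs_of_nonneg (φ.nonneg_normed t)]
      by_cases ht : ‖t‖ ≤ φ.rOut
      · exact mul_le_mul_of_nonneg_left (h t ht) (φ.nonneg_normed t)
      · rw [mol_zero_of φ ht, zero_mul, zero_mul]
  rw [h1, Real.norm_eq_abs] at h2
  exact h2

theorem mMOA : mMOA_stmt := by
  intro m φ f hf
  have hint : ∀ x, Integrable (fun t => φ.normed volume t * f (x - t)) := fun x =>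
    mol_integrable φ (hf.comp (continuous_const.sub continuous_id))
  refine ⟨?_, ?_, ?_, ?_⟩
  · have h1 : mol φ f = (convolution (φ.normed volume) f
        (ContinuousLinearMap.lsmul ℝ ℝ) volume) := by
      funext x
      rw [convolution_def]
      rfl
    rw [h1]
    exact HasCompactSupport.contDiff_convolution_left _ φ.hasCompactSupport_normed
      φ.contDiff_normed hf.locallyIntegrable
  · intro hc
    refine ⟨convex_univ, ?_⟩
    intro x _ y _ a b ha hb hab
    have h1 : ∀ t, f (a • x + b • y - t) ≤ a * f (x - t) + b * f (y - t) := by
      intro t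
      have h2 := hc.2 (mem_univ (x - t)) (mem_univ (y - t)) ha hb hab
      have h3 : a • (x - t) + b • (y - t) = a • x + b • y - t := by
        have h4 : a • t + b • t = t := by rw [← add_smul, hab, one_smul]
        have h5 : a • (x - t) + b • (y - t) = a • x + b • y - (a • t + b • t) := by
          rw [smul_sub, smul_sub]
          abel
        rw [h5, h4]
      rw [h3] at h2
      simpa only [smul_eq_mul] using h2
    have h2 : mol φ f (a • x + b • y) ≤
        ∫ t, (a * (φ.normed volume t * f (x - t)) + b * (φ.normed volume t * f (y - t))) := by
      refine integral_mono (hint _) (((hint x).const_mul a).add ((hint y).const_mul b)) ?_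
      intro t
      have h3 := mul_le_mul_of_nonneg_left (h1 t) (φ.nonneg_normed (μ := volume) t)
      refine h3.trans (le_of_eq ?_)
      ring
    refine h2.trans (le_of_eq ?_)
    rw [integral_add ((hint x).const_mul a) ((hint y).const_mul b), integral_const_mul,
      integral_const_mul]
    rfl
  · intro x ε h
    have h1 : mol φ f x - f x = ∫ t, φ.normed volume t * (f (x - t) - f x) := by
      have h2 : ∫ t, φ.normed volume t * f x = f x := by
        rw [integral_mul_const, ContDiffBump.integral_normed, one_mul]
      have h3 : (fun t => φ.normed volume t * (f (x - t) - f x)) =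
          fun t => φ.normed volume t * f (x - t) - φ.normed volume t * f x := by
        funext t
        ring
      rw [h3, integral_sub (hint x) (mol_integrable φ continuous_const), h2]
      rfl
    rw [h1]
    exact mol_le φ ((hf.comp (continuous_const.sub continuous_id)).sub continuous_const) h
  · intro R L h x y hx hy
    have h1 : mol φ f x - mol φ f y =
        ∫ t, φ.normed volume t * (f (x - t) - f (y - t)) := by
      have h3 : (fun t => φ.normed volume t * (f (x - t) - f (y - t))) =
          fun t => φ.normed volume t * f (x - t) - φ.normed volume t * f (y - t) := by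
        funext t
        ring
      rw [h3, integral_sub (hint x) (hint y)]
      rfl
    rw [h1]
    refine mol_le φ ((hf.comp (continuous_const.sub continuous_id)).sub
      (hf.comp (continuous_const.sub continuous_id))) ?_
    intro t ht
    have h4 := h (x - t) (y - t) ((norm_sub_le _ _).trans (add_le_add hx ht))
      ((norm_sub_le _ _).trans (add_le_add hy ht))
    have h5 : x - t - (y - t) = x - y := by abel
    rwa [h5] at h4

end Pool.Agent.helper90.SN
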