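import Pool.Agent.helper69.SN.SpecA
import Pool.Agent.helper35.SC.LA1
import Pool.Agent.helper35.SC.LA2

/-!
# Project sn (MP_d2d7b9), row aPSD: positive semidefinite matrices are in the cone
-/

open scoped Pointwise ContDiff
open MeasureTheory Set Filter Topology

set_option linter.unusedVariables false

namespace Pool.Agent.helper90.SN

open Pool.Agent.helper83.SC Pool.Agent.helper69.SN

/-- `t ^ m ≤ det (M + t)` for positive semidefinite `M`, `t ≥ 0`. -/
theorem pow_le_det {m : ℕ} {M : Mat m} (hM : M.PosSemidef) {t : ℝ} (ht : 0 ≤ t) :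
    t ^ m ≤ (M + t • (1 : Mat m)).det := by
  have h1 : (t • (1 : Mat m)).PosSemidef := Matrix.PosSemidef.one.smul ht
  have h2 := Pool.Agent.helper83.SC.mD_mono_of (m := m) (M := fun _ => t • (1 : Mat m))
    (N := fun _ => M + t • (1 : Mat m)) (fun _ => h1) (fun _ => by
      have : M + t • (1 : Mat m) - t • (1 : Mat m) = M := by abel
      rw [this]
      exact hM)
  rw [Pool.Agent.helper83.SC.mD_diag_of, Pool.Agent.helper83.SC.mD_diag_of] at h2
  refine le_trans (le_of_eq ?_) h2
  rw [Matrix.det_smul, Matrix.det_one, mul_one, Fintype.card_fin]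

/-- Every term of `Ph B M` is nonnegative for positive semidefinite data; so `det M ≤ Ph B M`. -/
theorem det_le_Ph {m n : ℕ} {B : Fin n → Mat m} (hB : Psd B) {M : Mat m} (hM : M.PosSemidef) :
    M.det ≤ Ph B M := by
  have h0 : ∀ T : Finset (Fin n), 0 ≤ (m.descFactorial T.card : ℝ) * mD (slot B T M) := by
    intro T
    refine mul_nonneg (Nat.cast_nonneg _) ?_
    refine Pool.Agent.helper83.SC.mD_nonneg_of ?_
    intro j
    unfold slot
    split_ifs with h
    · exact hB _
    · exact hM
  have h1 : M.det = (m.descFactorial (∅ : Finset (Fin n)).card : ℝ) * mD (slot B ∅ M) := by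
    have h2 : slot B ∅ M = fun _ => M := by
      funext j
      unfold slot
      simp
    rw [h2, Pool.Agent.helper83.SC.mD_diag_of]
    simp
  rw [h1]
  unfold Ph
  exact Finset.single_le_sum (f := fun T : Finset (Fin n) =>
    (m.descFactorial T.card : ℝ) * mD (slot B T M)) (fun T _ => h0 T) (Finset.mem_univ ∅)

theorem aPSD : aPSD_stmt := by
  intro m n B hB M hM
  refine ⟨?_, ?_⟩
  · have h := hM.isHermitian
    unfold Matrix.IsHermitian at h
    rwa [Matrix.conjTranspose_eq_transpose_of_trivial] at h
  · intro t ht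
    refine (pow_le_det hM ht).trans (det_le_Ph hB ?_)
    exact hM.add (Matrix.PosSemidef.one.smul ht)

end Pool.Agent.helper90.SN
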