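import Pool.Agent.helper28.SN.SpecC
import Pool.Agent.helper53.SC.HS1

/-!
# Project sn (MP_d2d7b9), row cPD: calculus of partial derivatives
-/

set_option autoImplicit false

open scoped Pointwise ContDiff
open MeasureTheory Set Filter Topology Pool.Agent.helper83.SC Pool.Agent.helper69.SN

namespace Pool.Agent.helper28.SN

theorem cPD : cPD_stmt := by
  intro m i j f hf
  refine ⟨HS1_smooth hf i, ?_, ?_, ?_⟩
  · intro hc
    exact hc.fderiv_apply ℝ (e i)
  · intro x
    rw [HS1_dd hf, HS1_dd hf, HS1_symm hf]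
  · intro s g hg x
    have hd : ∀ k, HasFDerivAt (g k) (fderiv ℝ (g k) x) x := fun k =>
      ((hg k).differentiable (by simp) x).hasFDerivAt
    have h1 := HasFDerivAt.finsetProd (u := s) (fun k _ => hd k)
    have h2 : pd i (fun y => ∏ k ∈ s, g k y) x =
        (∑ k ∈ s, (∏ l ∈ s.erase k, g l x) • fderiv ℝ (g k) x) (e i) := by
      unfold pd
      rw [h1.fderiv]
    rw [h2]
    simp only [FunLike.coe_sum, FunLike.coe_smul, Finset.sum_apply, Pi.smul_apply, smul_eq_mul]
    refine Finset.sum_congr rfl fun k _ => ?_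
    rw [mul_comm]
    rfl

end Pool.Agent.helper28.SN
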