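import Pool.Agent.helper40.SN.SpecD
import Pool.Agent.helper53.SC.HS1
import Pool.Agent.helper53.SC.HS2
import Pool.Agent.helper90.SN.APSD

/-!
# Project sn (MP_d2d7b9), row dXA: approximation of `X`
-/

set_option autoImplicit false

open scoped Pointwise ContDiff
open MeasureTheory Set Filter Topology Pool.Agent.helper83.SC Pool.Agent.helper69.SN

namespace Pool.Agent.helper40.SN

theorem dXA_cut (δ t : ℝ) : 0 ≤ cut δ t ∧ cut δ t ≤ 1 := by
  unfold cut
  exact ⟨le_min zero_le_one (le_max_left _ _), min_le_left _ _⟩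

theorem dXA_cut_zero {δ t : ℝ} (hδ : 0 < δ) (h : δ ≤ t) : cut δ t = 0 := by
  unfold cut
  have h1 : 2 - 2 * t / δ ≤ 0 := by
    rw [sub_nonpos, le_div_iff₀ hδ]
    linarith
  rw [max_eq_left h1, min_eq_right zero_le_one]

theorem dXA_cut_cont (δ : ℝ) : Continuous (cut δ) := by
  unfold cut
  fun_prop

theorem dXA_sum {n : ℕ} {M : Type*} [AddCommGroup M] [Module ℝ M] (T J : Finset (Fin n))
    (hTJ : Disjoint T J) (K s : ℝ) (H : Fin n → M) :
    ∑ i, wt T K J s i • H i = K • ∑ i ∈ T, H i + s • ∑ i ∈ J, H i := by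
  have h1 : ∀ i, wt T K J s i • H i =
      (if i ∈ T then K • H i else 0) + (if i ∈ J then s • H i else 0) := by
    intro i
    unfold wt
    by_cases h : i ∈ T
    · have h2 : i ∉ J := Finset.disjoint_left.1 hTJ h
      simp [h, h2]
    · by_cases h3 : i ∈ J
      · simp [h, h3]
      · simp [h, h3]
  simp only [h1, Finset.sum_add_distrib, Finset.sum_ite_mem, Finset.univ_inter, Finset.smul_sum]

theorem dXA_smcSum {m n : ℕ} {a : Fin n → E m → ℝ} (ha : ∀ i, SmC (a i)) (s : Finset (Fin n)) :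
    SmC (fun x => ∑ i ∈ s, a i x) := by
  classical
  refine ⟨ContDiff.sum fun i _ => (ha i).1, ?_⟩
  induction s using Finset.induction_on with
  | empty =>
    simp only [Finset.sum_empty]
    exact convexOn_const 0 convex_univ
  | insert i s hi ih =>
    simp only [Finset.sum_insert hi]
    exact (ha i).2.add ih

theorem dXA_smcSmul {m : ℕ} {f : E m → ℝ} (hf : SmC f) {c : ℝ} (hc : 0 ≤ c) :
    SmC (fun x => c * f x) :=
  ⟨contDiff_const.mul hf.1, hf.2.smul hc⟩

theorem dXA_smcAdd {m : ℕ} {f g : E m → ℝ} (hf : SmC f) (hg : SmC g) :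
    SmC (fun x => f x + g x) :=
  ⟨hf.1.add hg.1, hf.2.add hg.2⟩

theorem dXA_psd {m : ℕ} {f : E m → ℝ} (hf : SmC f) (x : E m) : (hess f x).PosSemidef :=
  hess_psd_of hf.1 hf.2 x

theorem dXA_wt_nonneg {n : ℕ} {T J : Finset (Fin n)} {K s : ℝ} (hK : 0 ≤ K) (hs0 : 0 ≤ s)
    (i : Fin n) : 0 ≤ wt T K J s i := by
  unfold wt
  split_ifs
  · exact hK
  · exact hs0
  · exact le_rfl

theorem dXA_Psd {m n : ℕ} {a : Fin n → E m → ℝ} (ha : ∀ i, SmC (a i)) {T J : Finset (Fin n)}
    {K s : ℝ} (hK : 0 ≤ K) (hs0 : 0 ≤ s) (x : E m) :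
    Psd (hs a (wt T K J s) x) := fun i =>
  (dXA_psd (ha i) x).smul (dXA_wt_nonneg hK hs0 i)

theorem dXA_cont {m n : ℕ} {a : Fin n → E m → ℝ} (ha : ∀ i, SmC (a i)) {T J : Finset (Fin n)}
    {K : ℝ} {σ : E m → ℝ} (hσ : Continuous σ) (i : Fin n) :
    Continuous (fun y => hs a (wt T K J (σ y)) y i) := by
  have h1 : Continuous (hess (a i)) := continuous_hess_of (ha i).1
  unfold hs wt
  by_cases hT : i ∈ T
  · simp only [hT, if_true]
    exact h1.const_smul K
  · by_cases hJ : i ∈ J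
    · simp only [hT, hJ, if_false, if_true]
      exact hσ.smul h1
    · simp only [hT, hJ, if_false]
      exact h1.const_smul (0 : ℝ)

theorem dXA_cont0 {m n : ℕ} {a : Fin n → E m → ℝ} (ha : ∀ i, SmC (a i)) (lam : Fin n → ℝ) :
    Continuous (fun y => hs a lam y) :=
  continuous_pi fun i => (continuous_hess_of (ha i).1).const_smul (lam i)

theorem dXA_contPh (hCNT : aCNT_stmt) {m n : ℕ} {B : E m → Fin n → Mat m} {M : E m → Mat m}
    (hB : Continuous B) (hM : Continuous M) : Continuous fun x => Ph (B x) (M x) := by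
  have h1 : Continuous fun x => (B x, M x) := hB.prodMk hM
  have h2 := (hCNT (m := m) (n := n) 0).2
  exact Continuous.comp (g := fun p : (Fin n → Mat m) × Mat m => Ph p.1 p.2)
    (f := fun x => (B x, M x)) h2 h1

theorem dXA_contdPh (hCNT : aCNT_stmt) {m n : ℕ} (r : ℕ) {B : E m → Fin n → Mat m}
    {A M : E m → Mat m} (hB : Continuous B) (hA : Continuous A) (hM : Continuous M) :
    Continuous fun x => dPh (B x) r (A x) (M x) := by
  have h1 : Continuous fun x => (B x, A x, M x) := hB.prodMk (hA.prodMk hM)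
  have h2 := (hCNT (m := m) (n := n) r).1
  exact Continuous.comp (g := fun p : (Fin n → Mat m) × Mat m × Mat m => dPh p.1 r p.2.1 p.2.2)
    (f := fun x => (B x, A x, M x)) h2 h1

theorem dXA (hEX : bEX_stmt) (hCLS : bCLS_stmt) (hBSM : aBSM_stmt) (hTAY : aTAY_stmt)
    (hDNN : aDNN_stmt) (hCNT : aCNT_stmt) (hWQ : dWQ_stmt) (hGEO : dGEO_stmt) : dXA_stmt := by
  intro m n S T D r ρ K δ a N hTS hTm hρ hρ1 hK hδ ha hN ε hε
  have hm : 1 ≤ m := by omega
  have hwc : Continuous (wf S D r a) := (hWQ S D r a hm ha).1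
  obtain ⟨J, hJ⟩ : ∃ J, J = S \ T := ⟨_, rfl⟩
  have hTJ : Disjoint T J := by rw [hJ]; exact Finset.disjoint_sdiff
  obtain ⟨σ, hσdef⟩ : ∃ σ : E m → ℝ, σ = fun y => cut δ (wf S D r a y) := ⟨_, rfl⟩
  have hσ0 : ∀ y, 0 ≤ σ y := fun y => by rw [hσdef]; exact (dXA_cut _ _).1
  have hσ1 : ∀ y, σ y ≤ 1 := fun y => by rw [hσdef]; exact (dXA_cut _ _).2
  have hσc : Continuous σ := by rw [hσdef]; exact (dXA_cut_cont δ).comp hwc
  obtain ⟨B, hBdef⟩ : ∃ B : E m → Fin n → Mat m, B = fun y => hs a (wt T K J (σ y)) y := ⟨_, rfl⟩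
  have hB : ∀ y, Psd (B y) := fun y => by rw [hBdef]; exact dXA_Psd ha hK (hσ0 y) y
  have hBc : ∀ i, Continuous fun y => B y i := fun i => by
    rw [hBdef]
    exact dXA_cont ha hσc i
  have hBsum : ∀ y, ∑ i, B y i =
      K • ∑ i ∈ T, hess (a i) y + σ y • ∑ i ∈ J, hess (a i) y := by
    intro y
    rw [hBdef]
    exact dXA_sum T J hTJ K (σ y) (fun i => hess (a i) y)
  have hQ : SmC (Qf D) := (hGEO D).1
  have hQp : ∀ x, (hess (Qf D) x).PosSemidef := (hGEO D).2.1
  -- the datum
  obtain ⟨κ₀, hκdef⟩ : ∃ κ₀ : E m → ℝ,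
      κ₀ = fun y => Gf S T D a y + K * ∑ i ∈ T, a i y := ⟨_, rfl⟩
  have hκs : SmC κ₀ := by
    rw [hκdef]
    refine dXA_smcAdd ?_ (dXA_smcSmul (dXA_smcSum ha T) hK)
    exact dXA_smcAdd hQ (dXA_smcSum ha (S \ T))
  have hκh : ∀ x, hess κ₀ x = hess (Qf D) x + ∑ j ∈ J, hess (a j) x
      + K • ∑ i ∈ T, hess (a i) x := by
    intro x
    rw [hκdef]
    have h1 : ContDiff ℝ ∞ (fun y : E m => ∑ i ∈ T, a i y) := (dXA_smcSum ha T).1
    have h2 : ContDiff ℝ ∞ (fun y : E m => ∑ i ∈ S \ T, a i y) := (dXA_smcSum ha (S \ T)).1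
    have h3 : ContDiff ℝ ∞ (Gf S T D a) := hQ.1.add h2
    rw [hess_add_of h3 (contDiff_const.mul h1), hess_smul_of h1, hess_sum_of _ (fun i => (ha i).1)]
    have h4 : hess (Gf S T D a) x = hess (Qf D) x + ∑ j ∈ J, hess (a j) x := by
      have h5 := hess_add_of hQ.1 h2 x
      rw [hess_sum_of _ (fun i => (ha i).1)] at h5
      rw [hJ]
      exact h5
    rw [h4]
  have hκ₀ : Cls B κ₀ := by
    refine (hCLS B hB).1 κ₀ hκs ?_
    intro x
    refine Pool.Agent.helper90.SN.aPSD _ (hB x) _ ?_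
    have h1 : hess κ₀ x - ∑ i, B x i =
        hess (Qf D) x + (1 - σ x) • ∑ j ∈ J, hess (a j) x := by
      rw [hκh, hBsum, sub_smul, one_smul]
      abel
    rw [h1]
    refine (hQp x).add (Matrix.PosSemidef.smul ?_ (sub_nonneg.2 (hσ1 x)))
    exact Matrix.posSemidef_sum _ fun j _ => dXA_psd (ha j) x
  have hNc : IsCompact (closure N) := by
    refine Metric.isCompact_of_isClosed_isBounded isClosed_closure ?_
    exact Metric.isBounded_ball.subset hN
  have hNU : closure N ⊆ Metric.ball 0 (2 * ρ) :=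
    hN.trans (Metric.ball_subset_ball (by linarith))
  obtain ⟨κ', hκ's, hclose, hcl, hint⟩ := hEX hm B hB hBc (Metric.ball 0 (2 * ρ)) κ₀
    Metric.isOpen_ball Metric.isBounded_ball hκ₀ (closure N) hNc hNU 1 ε hε
  have hsumT : ContDiff ℝ ∞ (fun y : E m => ∑ i ∈ T, a i y) := (dXA_smcSum ha T).1
  obtain ⟨X, hXdef⟩ : ∃ X : E m → ℝ, X = fun y => κ' y + (-K) * ∑ i ∈ T, a i y := ⟨_, rfl⟩
  have hXs : ContDiff ℝ ∞ X := by
    rw [hXdef]
    exact hκ's.1.add (contDiff_const.mul hsumT)
  have hXh : ∀ x, hess X x = hess κ' x - K • ∑ i ∈ T, hess (a i) x := by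
    intro x
    rw [hXdef, hess_add_of hκ's.1 (contDiff_const.mul hsumT), hess_smul_of hsumT,
      hess_sum_of _ (fun i => (ha i).1), neg_smul, sub_eq_add_neg]
  have hXB : ∀ x, hess X x - σ x • ∑ j ∈ J, hess (a j) x = hess κ' x - ∑ i, B x i := by
    intro x
    rw [hXh, hBsum]
    abel
  have hwt0 : ∀ x, (fun i => if i ∈ J then 0 else B x i) = hs a (wt T K ∅ 0) x := by
    intro x
    funext i
    rw [hBdef]
    simp only [hs, wt, Finset.notMem_empty, if_false]
    by_cases hiJ : i ∈ J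
    · have hiT : i ∉ T := Finset.disjoint_right.1 hTJ hiJ
      simp [hiJ, hiT]
    · by_cases hiT : i ∈ T
      · simp [hiJ, hiT]
      · simp [hiJ, hiT]
  have hXcl : ∀ x, ‖x‖ ≤ 1 → hess X x ∈ GG (hs a (wt T K ∅ 0) x) := by
    intro x hx
    have h1 := (hBSM (B x) (hB x) _ (hcl x hx)).1 J
    rw [hwt0] at h1
    have h2 : hess κ' x - ∑ i, B x i + ∑ i ∈ J, B x i = hess X x := by
      have h3 : ∑ i ∈ J, B x i = σ x • ∑ j ∈ J, hess (a j) x := by
        rw [Finset.smul_sum]
        refine Finset.sum_congr rfl fun i hi => ?_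
        have hiT : i ∉ T := Finset.disjoint_right.1 hTJ hi
        rw [hBdef]
        simp [hs, wt, hi, hiT]
      rw [h3, ← hXB]
      abel
    rwa [h2] at h1
  refine ⟨X, ⟨hXs, hXcl⟩, ?_, ?_⟩
  · intro x hx
    have h1 := hclose x hx
    have h2 : X x - Xf S T D r ρ K δ a x = κ' x - per B (Metric.ball 0 (2 * ρ)) κ₀ x := by
      rw [hXdef, hBdef, hκdef, hσdef, hJ]
      unfold Xf
      ring
    rw [h2]
    exact h1
  · -- the mass
    obtain ⟨W, hW⟩ : ∃ W : Set (E m), W = {x | ‖x‖ ≤ ρ ∧ wf S D r a x < δ} := ⟨_, rfl⟩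
    have hWm : MeasurableSet W := by
      rw [hW]
      exact (isClosed_le continuous_norm continuous_const).measurableSet.inter
        (isOpen_lt hwc continuous_const).measurableSet
    have hcontP : Continuous fun x => Ph (hs a (wt T K ∅ 0) x) (hess X x) :=
      dXA_contPh hCNT (dXA_cont0 ha _) (continuous_hess_of hXs)
    have hcontB : Continuous fun x => Ph (B x) (hess κ' x - ∑ i, B x i) :=
      dXA_contPh hCNT (continuous_pi hBc) ((continuous_hess_of hκ's.1).sub
        (continuous_finsetSum _ fun i _ => hBc i))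
    have hcontD : ∀ j, Continuous fun x =>
        dPh (hs a (wt T K ∅ 0) x) 2 (hess (a j) x) (hess X x) := fun j =>
      dXA_contdPh hCNT 2 (dXA_cont0 ha _) (continuous_hess_of (ha j).1) (continuous_hess_of hXs)
    have hpt : ∀ x ∈ closure N, Ph (hs a (wt T K ∅ 0) x) (hess X x) ≤
        Ph (B x) (hess κ' x - ∑ i, B x i) + 1 / 2 * ∑ j ∈ J,
          σ x ^ 2 * dPh (hs a (wt T K ∅ 0) x) 2 (hess (a j) x) (hess X x) := by
      intro x hx
      have hx1 : ‖x‖ ≤ 1 := by
        have h1 := hNU hx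
        rw [Metric.mem_ball, dist_zero_right] at h1
        linarith
      have h1 : hess X x - σ x • ∑ j ∈ J, hess (a j) x ∈
          GG (sc (wt T K J (σ x)) (fun i => hess (a i) x)) := by
        rw [hXB]
        have h2 := hcl x hx1
        have h3 : B x = sc (wt T K J (σ x)) (fun i => hess (a i) x) := by
          rw [hBdef]
          rfl
        rw [← h3]
        exact h2
      have h4 := hTAY (fun i => hess (a i) x) (fun i => dXA_psd (ha i) x) T J hTJ K (σ x) hK
        (hσ0 x) (hess X x) h1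
      rw [hXB] at h4
      have h3 : B x = sc (wt T K J (σ x)) (fun i => hess (a i) x) := by
        rw [hBdef]
        rfl
      rw [← h3] at h4
      exact h4
    have hDn : ∀ j, ∀ x, ‖x‖ ≤ 1 →
        0 ≤ dPh (hs a (wt T K ∅ 0) x) 2 (hess (a j) x) (hess X x) := fun j x hx =>
      (hDNN _ (dXA_Psd ha hK le_rfl x) _ _ (dXA_psd (ha j) x) (hXcl x hx)).1 2
    have hIon : ∀ {f : E m → ℝ}, Continuous f → IntegrableOn f (closure N) := fun hf =>
      hf.continuousOn.integrableOn_compact hNc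
    have hIball : ∀ {f : E m → ℝ}, Continuous f → IntegrableOn f W := by
      intro f hf
      refine (hf.continuousOn.integrableOn_compact (isCompact_closedBall (0 : E m) ρ)).mono_set ?_
      rw [hW]
      intro x hx
      rw [Metric.mem_closedBall, dist_zero_right]
      exact hx.1
    have hmain : ms T K a (closure N) X ≤
        ∫ x in closure N, (Ph (B x) (hess κ' x - ∑ i, B x i) + 1 / 2 * ∑ j ∈ J,
          σ x ^ 2 * dPh (hs a (wt T K ∅ 0) x) 2 (hess (a j) x) (hess X x)) := by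
      unfold ms
      refine setIntegral_mono_on (hIon hcontP) (hIon ?_) isClosed_closure.measurableSet hpt
      exact hcontB.add (continuous_const.mul (continuous_finsetSum _ fun j _ =>
        (hσc.pow 2).mul (hcontD j)))
    have hterm : ∀ j ∈ J, ∫ x in closure N,
        σ x ^ 2 * dPh (hs a (wt T K ∅ 0) x) 2 (hess (a j) x) (hess X x) ≤
        sm T K j a W X := by
      intro j hj
      have h1 : ∫ x in closure N,
          σ x ^ 2 * dPh (hs a (wt T K ∅ 0) x) 2 (hess (a j) x) (hess X x) ≤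
          ∫ x in closure N, W.indicator
            (fun x => dPh (hs a (wt T K ∅ 0) x) 2 (hess (a j) x) (hess X x)) x := by
        refine setIntegral_mono_on (hIon ((hσc.pow 2).mul (hcontD j)))
          ((hIon (hcontD j)).indicator hWm) isClosed_closure.measurableSet ?_
        intro x hx
        have hx2 : ‖x‖ < ρ := by
          have h1 := hN hx
          rwa [Metric.mem_ball, dist_zero_right] at h1
        have hx1 : ‖x‖ ≤ 1 := by linarith
        have hd := hDn j x hx1
        by_cases hxw : x ∈ W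
        · rw [Set.indicator_of_mem hxw]
          have h2 : σ x ^ 2 ≤ 1 := pow_le_one₀ (hσ0 x) (hσ1 x)
          calc σ x ^ 2 * dPh (hs a (wt T K ∅ 0) x) 2 (hess (a j) x) (hess X x)
              ≤ 1 * dPh (hs a (wt T K ∅ 0) x) 2 (hess (a j) x) (hess X x) :=
                mul_le_mul_of_nonneg_right h2 hd
            _ = _ := one_mul _
        · rw [Set.indicator_of_notMem hxw]
          have h2 : δ ≤ wf S D r a x := by
            by_contra h3
            exact hxw (by rw [hW]; exact ⟨hx2.le, not_le.1 h3⟩)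
          have h3 : σ x = 0 := by rw [hσdef]; exact dXA_cut_zero hδ h2
          rw [h3]
          simp
      refine h1.trans ?_
      rw [setIntegral_indicator hWm]
      unfold sm
      refine setIntegral_mono_set (hIball (hcontD j)) ?_
        (Filter.Eventually.of_forall fun x hx => hx.2)
      refine (ae_restrict_iff' hWm).2 (Filter.Eventually.of_forall fun x hx => ?_)
      refine hDn j x ?_
      rw [hW] at hx
      have := hx.1
      linarith
    have hcj : ∀ j, Continuous fun x =>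
        σ x ^ 2 * dPh (hs a (wt T K ∅ 0) x) 2 (hess (a j) x) (hess X x) := fun j =>
      (hσc.pow 2).mul (hcontD j)
    have hcs : Continuous fun x => 1 / 2 * ∑ j ∈ J,
        σ x ^ 2 * dPh (hs a (wt T K ∅ 0) x) 2 (hess (a j) x) (hess X x) :=
      continuous_const.mul (continuous_finsetSum _ fun j _ => hcj j)
    have e1 : ∫ x in closure N, (Ph (B x) (hess κ' x - ∑ i, B x i) + 1 / 2 * ∑ j ∈ J,
          σ x ^ 2 * dPh (hs a (wt T K ∅ 0) x) 2 (hess (a j) x) (hess X x)) =
        (∫ x in closure N, Ph (B x) (hess κ' x - ∑ i, B x i)) +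
        ∫ x in closure N, 1 / 2 * ∑ j ∈ J,
          σ x ^ 2 * dPh (hs a (wt T K ∅ 0) x) 2 (hess (a j) x) (hess X x) :=
      integral_add (hIon hcontB) (hIon hcs)
    have e2 : ∫ x in closure N, 1 / 2 * ∑ j ∈ J,
          σ x ^ 2 * dPh (hs a (wt T K ∅ 0) x) 2 (hess (a j) x) (hess X x) =
        1 / 2 * ∑ j ∈ J, ∫ x in closure N,
          σ x ^ 2 * dPh (hs a (wt T K ∅ 0) x) 2 (hess (a j) x) (hess X x) := by
      rw [integral_const_mul, integral_finsetSum J fun j _ => hIon (hcj j)]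
    refine hmain.trans ?_
    rw [e1, e2, ← hW, ← hJ]
    exact add_le_add hint (mul_le_mul_of_nonneg_left (Finset.sum_le_sum hterm) (by norm_num))

end Pool.Agent.helper40.SN
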